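import Pool.Agent.Y45.MON.LStm

/-!
# Project MON: the laws of a halting machine imply commutativity (job LG1)
-/

set_option autoImplicit false
set_option linter.unusedSectionVars false

namespace Pool.Agent.Y769.MON

open Pool.Agent.Y45.MON Turing Tm Sy

section

variable {Γ Λ : Type} [Inhabited Γ] [Inhabited Λ] {G : Type} [Group G]
  (v : Sy Γ Λ → G → G → G)

/-- group elements representing left stacks -/
inductive LR : G → ListBlank Γ → Prop
  | base (x y : G) : LR (v (lc none) x y) (ListBlank.mk [])
  | cons (a : Γ) (A z : G) (L : ListBlank Γ) (h : LR A L) :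
      LR (v (lc (some a)) A z) (L.cons a)

/-- group elements representing right stacks -/
inductive RR : G → ListBlank Γ → Prop
  | base (x y : G) : RR (v (rc none) x y) (ListBlank.mk [])
  | cons (a : Γ) (A z : G) (L : ListBlank Γ) (h : RR A L) :
      RR (v (rc (some a)) A z) (L.cons a)

/-- pairs representing configurations -/
def Rep (c : TM0.Cfg Γ Λ) (A B : G) : Prop :=
  LR v A c.Tape.left ∧ ∃ z y : G, RR v z c.Tape.right ∧ B = v (rh c.q c.Tape.head) z y

variable {v}

theorem LR.exists_op {A : G} {L : ListBlank Γ} (h : LR v A L) :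
    ∃ (o : Option Γ) (x y : G), A = v (lc o) x y := by
  cases h with
  | base x y => exact ⟨none, x, y, rfl⟩
  | cons a A z L h => exact ⟨some a, A, z, rfl⟩

theorem eq_one_of_pow {p q : ℕ} (hpq : Nat.Coprime p q) {g : G} (h1 : g ^ p = 1)
    (h2 : g ^ q = 1) : g = 1 := by
  have h3 : orderOf g ∣ Nat.gcd p q :=
    Nat.dvd_gcd (orderOf_dvd_of_pow_eq_one h1) (orderOf_dvd_of_pow_eq_one h2)
  rw [hpq] at h3
  exact orderOf_eq_one_iff.1 (Nat.dvd_one.1 h3)

theorem ep_one (hv : Opv G v) (x : G) : v ep x 1 = x :=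
  hv.vE ep x 1 (by simp) trivial

theorem eq_one (hv : Opv G v) (x : G) : v eq x 1 = x :=
  hv.vE eq x 1 (by simp) trivial

variable {M : TM0.Machine Γ Λ} {l : List Γ} {p q N : ℕ}

/-- the use of a rule -/
theorem rule (hpq : Nat.Coprime p q) (hv : Opv G v)
    (hl : ∀ t, IsLaw M l p q N t → ∀ f : ℕ → G, ev v f t = 1) {s : Λ} {a : Γ}
    {o o2 : Option Γ} {s1 s2 t1 t2 : Tm (Sy Γ Λ)}
    (h : rl M s a o o2 = some (s1, s2, t1, t2)) (f : ℕ → G) :
    ((v al (ev v f s1) (ev v f s2)) ^ p = 1 → (v al (ev v f t1) (ev v f t2)) ^ p = 1) ∧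
      (v ga (ev v f t1) (ev v f t2) = 1 → v ga (ev v f s1) (ev v f s2) = 1) := by
  constructor
  · intro h1
    have h2 := hl _ (IsLaw.l2 s a o o2 s1 s2 t1 t2 h) f
    simp only [ev] at h2
    rw [h1, ep_one hv] at h2
    exact h2
  · intro h1
    have h2 := hl _ (IsLaw.l4p s a o o2 s1 s2 t1 t2 h) f
    have h3 := hl _ (IsLaw.l4q s a o o2 s1 s2 t1 t2 h) f
    simp only [ev] at h2 h3
    rw [h1, ep_one hv] at h2
    rw [h1, eq_one hv] at h3
    exact eq_one_of_pow hpq h2 h3

/-- an assignment of five variables -/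
def asg (x0 x1 x2 x3 x4 : G) : ℕ → G
  | 0 => x0
  | 1 => x1
  | 2 => x2
  | 3 => x3
  | _ => x4

theorem forward (hpq : Nat.Coprime p q) (hv : Opv G v)
    (hl : ∀ t, IsLaw M l p q N t → ∀ f : ℕ → G, ev v f t = 1) {c c' : TM0.Cfg Γ Λ}
    (hc : c' ∈ TM0.step M c) {A B : G} (hR : Rep v c A B) :
    ∃ A' B' : G, Rep v c' A' B' ∧ ((v al A B) ^ p = 1 → (v al A' B') ^ p = 1) ∧
      (v ga A' B' = 1 → v ga A B = 1) := by
  obtain ⟨s, a, L, R⟩ := c
  obtain ⟨hL, z, y, hz, rfl⟩ := hR
  simp only at hL hz
  simp only [TM0.step] at hc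
  rcases hM : M s a with _ | ⟨q', st⟩
  · rw [hM] at hc
    simp at hc
  rw [hM] at hc
  simp only [Option.map_some, Option.mem_def, Option.some.injEq] at hc
  subst hc
  rcases st with d | b
  · rcases d with _ | _
    · -- left
      cases hL with
      | base x0 x1 =>
        have hr : rl M s a none (none : Option Γ) = some (op (lc none) (var 0) (var 1),
            op (rh s a) (var 2) (var 3), op (lc none) (var 0) (var 1),
            op (rh q' default) (op (rc (some a)) (var 2) (var 3))
              (op (lc none) (var 0) (var 1))) := by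
          simp only [rl, hM]
        have h1 := rule hpq hv hl hr (asg x0 x1 z y 1)
        simp only [ev, asg] at h1
        refine ⟨_, _, ⟨?_, ?_⟩, h1.1, h1.2⟩
        · simpa [Tape.move] using LR.base (v := v) x0 x1
        · exact ⟨_, v (lc none) x0 x1, by simpa [Tape.move] using RR.cons (v := v) a z y R hz,
            by simp [Tape.move]⟩
      | cons c0 A0 w L' hL' =>
        have hr : rl M s a (some c0) (none : Option Γ) = some (op (lc (some c0)) (var 0) (var 1),
            op (rh s a) (var 2) (var 3), var 0,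
            op (rh q' c0) (op (rc (some a)) (var 2) (var 3))
              (op (lc (some c0)) (var 0) (var 1))) := by
          simp only [rl, hM]
        have h1 := rule hpq hv hl hr (asg A0 w z y 1)
        simp only [ev, asg] at h1
        refine ⟨_, _, ⟨?_, ?_⟩, h1.1, h1.2⟩
        · simpa [Tape.move] using hL'
        · exact ⟨_, v (lc (some c0)) A0 w, by simpa [Tape.move] using RR.cons (v := v) a z y R hz,
            by simp [Tape.move]⟩
    · -- right
      obtain ⟨o, x0, x1, rfl⟩ := hL.exists_op
      cases hz with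
      | base x2 x3 =>
        have hr : rl M s a o none = some (op (lc o) (var 0) (var 1),
            op (rh s a) (op (rc none) (var 2) (var 3)) (var 4),
            op (lc (some a)) (op (lc o) (var 0) (var 1))
              (op (rh s a) (op (rc none) (var 2) (var 3)) (var 4)),
            op (rh q' default) (op (rc none) (var 2) (var 3)) (op (lc o) (var 0) (var 1))) := by
          simp only [rl, hM]
        have h1 := rule hpq hv hl hr (asg x0 x1 x2 x3 y)
        simp only [ev, asg] at h1
        refine ⟨_, _, ⟨?_, ?_⟩, h1.1, h1.2⟩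
        · exact LR.cons a _ _ L hL
        · exact ⟨_, v (lc o) x0 x1, by simpa [Tape.move] using RR.base (v := v) x2 x3,
            by simp [Tape.move]⟩
      | cons b A0 w R' hR' =>
        have hr : rl M s a o (some b) = some (op (lc o) (var 0) (var 1),
            op (rh s a) (op (rc (some b)) (var 2) (var 3)) (var 4),
            op (lc (some a)) (op (lc o) (var 0) (var 1))
              (op (rh s a) (op (rc (some b)) (var 2) (var 3)) (var 4)),
            op (rh q' b) (var 2) (var 3)) := by
          simp only [rl, hM]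
        have h1 := rule hpq hv hl hr (asg x0 x1 A0 w y)
        simp only [ev, asg] at h1
        refine ⟨_, _, ⟨?_, ?_⟩, h1.1, h1.2⟩
        · exact LR.cons a _ _ L hL
        · exact ⟨_, w, by simpa [Tape.move] using hR', by simp [Tape.move]⟩
  · -- write
    by_cases hq : q' = s ∧ b = a
    · obtain ⟨rfl, rfl⟩ := hq
      exact ⟨A, _, ⟨hL, z, y, hz, rfl⟩, fun h => h, fun h => h⟩
    · obtain ⟨o, x0, x1, rfl⟩ := hL.exists_op
      have hr : rl M s a o (none : Option Γ) = some (op (lc o) (var 0) (var 1),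
            op (rh s a) (var 2) (var 3), op (lc o) (var 0) (var 1),
            op (rh q' b) (var 2) (var 3)) := by
          simp only [rl, hM, hq, if_false]
      have h1 := rule hpq hv hl hr (asg x0 x1 z y 1)
      simp only [ev, asg] at h1
      exact ⟨_, _, ⟨hL, z, y, hz, rfl⟩, h1.1, h1.2⟩

theorem RR_tR (f : ℕ → G) (l : List Γ) : RR v (ev v f (tR l)) (ListBlank.mk l) := by
  induction l with
  | nil => exact RR.base _ _
  | cons a l ih =>
    rw [← ListBlank.cons_mk]
    exact RR.cons a _ _ _ ih

theorem rep_start (f : ℕ → G) (l : List Γ) :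
    Rep v (TM0.init l : TM0.Cfg Γ Λ) (ev v f tA0) (ev v f (tB0 l)) := by
  refine ⟨?_, ?_⟩
  · exact LR.base _ _
  · exact ⟨_, ev v f tA0, RR_tR f l.tail, rfl⟩

end

theorem haltStmt : HaltStmt := by
  intro Γ Λ _ _ M l p q N hpq hH G _ v hv hl
  obtain ⟨b, hb⟩ := Part.dom_iff_mem.1 hH
  rw [StateTransition.mem_eval] at hb
  obtain ⟨hreach, hnone⟩ := hb
  have main0 : ∀ c0 : TM0.Cfg Γ Λ, Relation.ReflTransGen (fun a b => b ∈ TM0.step M a) c0 b →
      ∀ A B : G, Rep v c0 A B → (v al A B) ^ p = 1 → v ga A B = 1 := by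
    intro c0 hr
    induction hr using Relation.ReflTransGen.head_induction_on with
    | refl =>
      intro A B hR hal
      obtain ⟨s, a, L, R⟩ := b
      obtain ⟨hL, z, y, hz, rfl⟩ := hR
      obtain ⟨o, x0, x1, rfl⟩ := hL.exists_op
      have hM : M s a = none := by
        simpa [TM0.step] using hnone
      have h2 := hl _ (IsLaw.l3p s a o hM) (asg x0 x1 z y 1)
      have h3 := hl _ (IsLaw.l3q s a o hM) (asg x0 x1 z y 1)
      simp only [ev, asg] at h2 h3
      simp only at hal
      rw [hal, ep_one hv] at h2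
      rw [hal, eq_one hv] at h3
      exact eq_one_of_pow hpq h2 h3
    | head h _ ih =>
      intro A B hR hal
      obtain ⟨A', B', hR', h1, h2⟩ := forward hpq hv hl h hR
      exact h2 (ih A' B' hR' (h1 hal))
  have main := main0 (TM0.init l) hreach
  have hstart : ∀ f : ℕ → G, v ga (ev v f tA0) (ev v f (tB0 l)) = 1 := by
    intro f
    refine main _ _ (rep_start f l) ?_
    have := hl _ IsLaw.l1 f
    simpa only [ev] using this
  have hga : ∀ x y : G, v ga x y = 1 := by
    intro x y
    have h2 := hl _ IsLaw.l5p (asg x y 1 1 1)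
    have h3 := hl _ IsLaw.l5q (asg x y 1 1 1)
    simp only [ev] at h2 h3
    rw [hstart, ep_one hv] at h2
    rw [hstart, eq_one hv] at h3
    exact eq_one_of_pow hpq h2 h3
  intro x y
  have h2 := hl _ IsLaw.l6p (asg x y 1 1 1)
  have h3 := hl _ IsLaw.l6q (asg x y 1 1 1)
  simp only [ev] at h2 h3
  rw [hga, ep_one hv] at h2
  rw [hga, eq_one hv] at h3
  have h4 := eq_one_of_pow hpq h2 h3
  simp only [asg] at h4
  have h5 : x * y * x⁻¹ = y := by
    calc x * y * x⁻¹ = (x * y * x⁻¹ * y⁻¹) * y := by group
      _ = y := by rw [h4, one_mul]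
  calc x * y = (x * y * x⁻¹) * x := by group
    _ = y * x := by rw [h5]

end Pool.Agent.Y769.MON
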